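import Pool.Agent.U467.CN.Stm

/-! # Project CN: the assembly -/

set_option autoImplicit false

open Set Topology Filter MeasureTheory

namespace Pool.Agent.U467.CN

/-- the number of a node -/
def nu (i : ℕ × ℤ) (b : Bool) (s : List ℕ) (t : List ℤ) : ℕ := Encodable.encode (i, b, s, t)

theorem nu_inj {i i' : ℕ × ℤ} {b b' : Bool} {s s' : List ℕ} {t t' : List ℤ}
    (h : nu i b s t = nu i' b' s' t') : i = i' ∧ b = b' ∧ s = s' ∧ t = t' := by
  have := Encodable.encode_injective h
  simp only [Prod.mk.injEq] at this
  exact this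

/-- the trees coded by `z` -/
def TT (z : Z) (i : ℕ × ℤ) (b : Bool) (s : List ℕ) : Prop := z (nu i b s (rs z s.length)) < 0

/-- the set -/
def A : Set (Z × Z) := {x | ∀ (m : ℕ) (v : ℤ),
  (x.2 m = v → ¬ ∃ n, E (TT x.1 (m, v) false) [] (TT x.1 (m, v) true) [n]) ∧
  (x.2 m ≠ v → ¬ E (TT x.1 (m, v) true) [] (TT x.1 (m, v) false) [])}

theorem A_graph (hC : S_COMP) {z k k' : Z} (h : (z, k) ∈ A) (h' : (z, k') ∈ A) : k = k' := by
  funext m
  by_contra hne
  have h1 := (h m (k m)).1 rfl
  have h2 := (h' m (k m)).2 (fun h3 => hne h3.symm)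
  rcases hC (TT z (m, k m) true) (TT z (m, k m) false) with h3 | h3
  · exact h2 h3
  · exact h1 h3

theorem A_nullFinite (hC : S_COMP) : NullFinite A := by
  refine ⟨fun n => (0, Pi.single n 1), ?_, ?_⟩
  · rw [Prod.tendsto_iff]
    refine ⟨tendsto_const_nhds, ?_⟩
    rw [tendsto_pi_nhds]
    intro j
    refine tendsto_const_nhds.congr' ?_
    filter_upwards [eventually_gt_atTop j] with n hn
    simp [hn.ne]
  · rintro ⟨a, b⟩
    refine Set.Subsingleton.finite ?_
    intro n hn n' hn'
    have h1 := A_graph hC (z := a + 0) (k := b + Pi.single n 1) (k' := b + Pi.single n' 1) hn hn'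
    have h2 : (Pi.single n 1 : Z) = Pi.single n' 1 := add_left_cancel h1
    by_contra hne
    have h3 := congrFun h2 n
    simp [hne] at h3

theorem meas_rs (n : ℕ) (t : List ℤ) : MeasurableSet {z : Z | rs z n = t} := by
  induction n generalizing t with
  | zero => by_cases h : t = [] <;> simp [rs, h, eq_comm]
  | succ n ih =>
    cases t with
    | nil => simp [rs]
    | cons a t =>
      have : {z : Z | rs z (n + 1) = a :: t} = {z | z n = a} ∩ {z | rs z n = t} := by
        ext z
        simp [rs, PiNat.res_succ]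
      rw [this]
      exact ((measurable_pi_apply n) (measurableSet_singleton a)).inter (ih t)

theorem meas_TT (i : ℕ × ℤ) (b : Bool) (s : List ℕ) : MeasurableSet {z : Z | TT z i b s} := by
  have : {z : Z | TT z i b s} = ⋃ t : List ℤ, {z | rs z s.length = t} ∩ {z | z (nu i b s t) < 0} := by
    ext z
    simp only [Set.mem_ofPred_eq, mem_iUnion, mem_inter_iff, TT]
    constructor
    · intro h
      exact ⟨_, rfl, h⟩
    · rintro ⟨t, rfl, h⟩
      exact h
  rw [this]
  refine MeasurableSet.iUnion fun t => (meas_rs _ t).inter ?_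
  have h1 : Measurable fun z : Z => z (nu i b s t) := measurable_pi_apply _
  have h2 := h1 (measurableSet_Iio (a := (0 : ℤ)))
  exact h2

theorem A_coanalytic (hA : S_ANA) : AnalyticSet Aᶜ := by
  have hm : ∀ (i : ℕ × ℤ) (b : Bool) (s : List ℕ), MeasurableSet {x : Z × Z | TT x.1 i b s} :=
    fun i b s => measurable_fst (meas_TT i b s)
  have hk : ∀ (m : ℕ) (v : ℤ), MeasurableSet {x : Z × Z | x.2 m = v} := by
    intro m v
    have h1 : Measurable fun x : Z × Z => x.2 m := (measurable_pi_apply m).comp measurable_snd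
    have h2 := h1 (measurableSet_singleton v)
    exact h2
  have h1 : ∀ (m : ℕ) (v : ℤ), AnalyticSet ({x : Z × Z | x.2 m = v} ∩
      {x | ∃ n, E (TT x.1 (m, v) false) [] (TT x.1 (m, v) true) [n]}) := by
    intro m v
    have e : {x : Z × Z | ∃ n, E (TT x.1 (m, v) false) [] (TT x.1 (m, v) true) [n]} =
        ⋃ n : ℕ, {x : Z × Z | E (TT x.1 (m, v) false) [] (TT x.1 (m, v) true) [n]} := by
      ext x; simp
    rw [e, inter_eq_iInter]
    refine AnalyticSet.iInter fun b => ?_
    cases b
    · exact AnalyticSet.iUnion fun n => hA (Z × Z) (fun x => TT x.1 (m, v) false)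
        (fun x => TT x.1 (m, v) true) (hm _ _) (hm _ _) [] [n]
    · exact (hk m v).analyticSet
  have h2 : ∀ (m : ℕ) (v : ℤ), AnalyticSet ({x : Z × Z | x.2 m = v}ᶜ ∩
      {x | E (TT x.1 (m, v) true) [] (TT x.1 (m, v) false) []}) := by
    intro m v
    rw [inter_eq_iInter]
    refine AnalyticSet.iInter fun b => ?_
    cases b
    · exact hA (Z × Z) (fun x => TT x.1 (m, v) true)
        (fun x => TT x.1 (m, v) false) (hm _ _) (hm _ _) [] []
    · exact (hk m v).compl.analyticSet
  have e : Aᶜ = ⋃ m : ℕ, ⋃ v : ℤ, ⋃ b : Bool, (bif b then ({x : Z × Z | x.2 m = v} ∩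
      {x | ∃ n, E (TT x.1 (m, v) false) [] (TT x.1 (m, v) true) [n]}) else ({x : Z × Z | x.2 m = v}ᶜ ∩
      {x | E (TT x.1 (m, v) true) [] (TT x.1 (m, v) false) []})) := by
    ext x
    simp only [mem_compl_iff, A, Set.mem_ofPred_eq, mem_iUnion]
    constructor
    · intro h
      push Not at h
      obtain ⟨m, v, h⟩ := h
      by_cases h3 : x.2 m = v ∧ ∃ n, E (TT x.1 (m, v) false) [] (TT x.1 (m, v) true) [n]
      · exact ⟨m, v, true, h3⟩
      · refine ⟨m, v, false, h ?_⟩
        intro h4 n h5
        exact h3 ⟨h4, n, h5⟩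
    · rintro ⟨m, v, b, h⟩ h'
      cases b
      · exact (h' m v).2 h.1 h.2
      · exact (h' m v).1 h.1 h.2
  rw [e]
  refine AnalyticSet.iUnion fun m => AnalyticSet.iUnion fun v => AnalyticSet.iUnion fun b => ?_
  cases b
  · exact h2 m v
  · exact h1 m v

/-- Borel uniformization of sets with nonmeager sections -/
theorem unif (hU : S_UNB) (hS : S_SEL) (D : Set (Z × Z)) (hD : MeasurableSet D) :
    ∃ u : Z → Z, Measurable u ∧ ∀ z, ¬ IsMeagre {k | (z, k) ∈ D} → (z, u z) ∈ D := by
  obtain ⟨O, G, hO, hG, hd, hOG⟩ := hU D hD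
  obtain ⟨u, hu, h⟩ := hS O G hO hG hd
  refine ⟨u, hu, fun z hz => ?_⟩
  by_cases ht : ∃ t, z ∈ O t
  · obtain ⟨h1, h2⟩ := h z ht
    exact (hOG z (u z) h2).2 h1
  · exfalso
    apply hz
    have hopen : ∀ (t : List ℤ), IsOpen {k : Z | rs k t.length = t} := by
      intro t
      induction t with
      | nil => simp [rs]
      | cons a t ih =>
        have : {k : Z | rs k (a :: t).length = a :: t} = {k | k t.length = a} ∩
            {k | rs k t.length = t} := by
          ext k
          simp [rs, PiNat.res_succ]
        rw [this]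
        exact ((isOpen_discrete {a}).preimage (continuous_apply t.length)).inter ih
    have hGm : ∀ n, IsMeagre {k : Z | ∃ m, z ∈ G n (rs k m)}ᶜ := by
      intro n
      have ho : IsOpen {k : Z | ∃ m, z ∈ G n (rs k m)} := by
        have e : {k : Z | ∃ m, z ∈ G n (rs k m)} = ⋃ t ∈ {t | z ∈ G n t},
            {k : Z | rs k t.length = t} := by
          ext k
          simp only [Set.mem_ofPred_eq, mem_iUnion, exists_prop]
          constructor
          · rintro ⟨m, hm⟩
            exact ⟨rs k m, hm, by rw [rs, PiNat.res_length]⟩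
          · rintro ⟨t, ht, hk⟩
            exact ⟨t.length, by rwa [hk]⟩
        rw [e]
        exact isOpen_biUnion fun t _ => hopen t
      have hdense : Dense {k : Z | ∃ m, z ∈ G n (rs k m)} := by
        rw [dense_iff_inter_open]
        intro U hU hne
        obtain ⟨k, hk⟩ := hne
        obtain ⟨m, hm⟩ : ∃ m, ∀ k' : Z, rs k' m = rs k m → k' ∈ U := by
          have h1 := (PiNat.isTopologicalBasis_cylinders (fun _ : ℕ => ℤ)).mem_nhds_iff.1
            (hU.mem_nhds hk)
          obtain ⟨s, ⟨x, m, rfl⟩, hks, hs⟩ := h1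
          refine ⟨m, fun k' hk' => hs ?_⟩
          rw [PiNat.cylinder_eq_res] at hks ⊢
          have h2 : PiNat.res k m = PiNat.res x m := hks
          have h3 : PiNat.res k' m = PiNat.res k m := hk'
          exact h3.trans h2
        obtain ⟨t', ht1, ht2⟩ := hd n z (rs k m)
        obtain ⟨k', hk'⟩ : ∃ k' : Z, rs k' t'.length = t' := by
          have : ∀ t : List ℤ, ∃ k' : Z, rs k' t.length = t := by
            intro t
            induction t with
            | nil => exact ⟨0, rfl⟩
            | cons a t ih =>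
              obtain ⟨k', hk'⟩ := ih
              refine ⟨Function.update k' t.length a, ?_⟩
              have h3 : rs (Function.update k' t.length a) t.length = rs k' t.length := by
                rw [rs, rs, PiNat.res_eq_res]
                intro j hj
                rw [Function.update_of_ne hj.ne]
              rw [List.length_cons, rs, PiNat.res_succ, Function.update_self]
              rw [rs] at h3
              rw [h3]
              exact congrArg _ hk'
          exact this t'
        refine ⟨k', hm k' ?_, t'.length, by rwa [hk']⟩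
        obtain ⟨l, hl⟩ := ht1
        have hlen : m ≤ t'.length := by
          rw [← hl, List.length_append, rs, PiNat.res_length]
          omega
        have key : ∀ (d m : ℕ), (rs k' (m + d)).drop d = rs k' m := by
          intro d
          induction d with
          | zero => intro m; rfl
          | succ d ih =>
            intro m
            rw [← Nat.add_assoc, rs, PiNat.res_succ, List.drop_succ_cons]
            exact ih m
        have h5 := key (t'.length - m) m
        rw [Nat.add_sub_cancel' hlen, hk'] at h5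
        rw [← h5, ← hl]
        have h6 : (l ++ rs k m).length - m = l.length := by
          rw [List.length_append, rs, PiNat.res_length]
          omega
        rw [h6, List.drop_left]
      rw [IsMeagre, compl_compl]
      exact residual_of_dense_open ho hdense
    refine (isMeagre_iUnion hGm).mono ?_
    intro k hk
    by_contra hn
    simp only [mem_iUnion, not_exists, mem_compl_iff, not_not] at hn
    obtain ⟨m, hm⟩ := (hOG z k hn).1 hk
    exact ht ⟨_, hm⟩

theorem asmB (hB : S_BR) (hK : S_CODE) (hU : S_UNB) (hS : S_SEL) (hX : S_ABS) :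
    ∀ B : Set (Z × Z), @MeasurableSet _ (borel (Z × Z)) B → A ⊆ B → ¬ NullFinite B := by
  intro B hBm hAB hNF
  have hBm' : MeasurableSet B := by
    have : borel (Z × Z) = (inferInstance : MeasurableSpace (Z × Z)) := BorelSpace.measurable_eq.symm
    rw [this] at hBm
    exact hBm
  obtain ⟨u, hu, huD⟩ := unif hU hS Bᶜ hBm'.compl
  have hE : ∀ i : ℕ × ℤ, MeasurableSet {z : Z | u z i.1 = i.2} := by
    intro i
    have h1 : Measurable fun z : Z => u z i.1 := (measurable_pi_apply i.1).comp hu
    have h2 := h1 (measurableSet_singleton i.2)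
    exact h2
  choose c1 hc1 using fun i => hK _ (hE i).compl.analyticSet
  choose c0 hc0 using fun i => hK _ (hE i).analyticSet
  obtain ⟨z, hz, hzm⟩ := hX B hNF fun j => ∃ i b s t, j = nu i b s t ∧
    (bif b then c1 i s t else c0 i s t)
  have hT : ∀ i b s, TT z i b s ↔ (bif b then c1 i s (rs z s.length) else c0 i s (rs z s.length)) := by
    intro i b s
    rw [TT, hz]
    constructor
    · rintro ⟨i', b', s', t', h1, h2⟩
      obtain ⟨rfl, rfl, rfl, rfl⟩ := nu_inj h1
      exact h2
    · intro h
      exact ⟨i, b, s, _, rfl, h⟩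
  have hT1 : ∀ i, TT z i true = fun s => c1 i s (rs z s.length) := by
    intro i; funext s; exact propext (hT i true s)
  have hT0 : ∀ i, TT z i false = fun s => c0 i s (rs z s.length) := by
    intro i; funext s; exact propext (hT i false s)
  have hmem : (z, u z) ∈ A := by
    intro m v
    constructor
    · rintro h1 ⟨n, h2⟩
      have h3 : Br (TT z (m, v) false) := by
        rw [hT0]
        exact (hc0 (m, v) z).1 h1
      have h4 := hB _ _ _ h2 h3
      rw [hT1] at h4
      exact (hc1 (m, v) z).2 h4 h1
    · intro h1 h2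
      have h3 : Br (TT z (m, v) true) := by
        rw [hT1]
        exact (hc1 (m, v) z).1 h1
      have h4 := hB _ _ _ h2 h3
      rw [hT0] at h4
      exact h1 ((hc0 (m, v) z).2 h4)
  exact huD z hzm (hAB hmem)

theorem asm (hC : S_COMP) (hB : S_BR) (hA : S_ANA) (hK : S_CODE) (hU : S_UNB) (hS : S_SEL)
    (hX : S_ABS) : S_FIN :=
  ⟨A, A_coanalytic hA, A_nullFinite hC, asmB hB hK hU hS hX⟩

end Pool.Agent.U467.CN
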