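import Pool.Agent.U467.CN.Stm

/-! # Project CN: the packages COMP, BR, CODE, ABS -/

set_option autoImplicit false

open Set Topology Filter MeasureTheory

namespace Pool.Agent.U467.CN

theorem In_nil_iff {T : List ℕ → Prop} : In T [] ↔ T [] := by
  constructor
  · intro h; exact h [] (List.suffix_refl _)
  · intro h t ht
    rw [List.suffix_nil] at ht
    rwa [ht]

theorem In_tail {T : List ℕ → Prop} {s t : List ℕ} (h : In T s) (ht : t <:+ s) : In T t :=
  fun r hr => h r (hr.trans ht)

/-- gluing maps -/
noncomputable def glue (Ψ : ℕ → List ℕ → ℕ) (N : ℕ → ℕ) (l : List ℕ) : ℕ :=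
  if h : l = [] then 0 else if l.dropLast = [] then N (l.getLast h) else Ψ (l.getLast h) l.dropLast

theorem ext_glue (Ψ : ℕ → List ℕ → ℕ) (N : ℕ → ℕ) (m : ℕ) (l : List ℕ) :
    ext (glue Ψ N) (l ++ [m]) = ext (Ψ m) l ++ [N m] := by
  induction l with
  | nil => simp [ext, glue]
  | cons a l ih =>
    rw [List.cons_append, ext, ih, ext, List.cons_append]
    congr 1
    have h1 : (a :: (l ++ [m])).getLast (by simp) = m := by
      simp
    have h2 : (a :: (l ++ [m])).dropLast = a :: l := by
      rw [← List.cons_append, List.dropLast_concat]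
    rw [glue, dif_neg (by simp), if_neg (by rw [h2]; simp), h1, h2]

theorem t_COMP : S_COMP := by
  intro T T'
  by_cases h : ∃ n, E T' [] T [n]
  · exact Or.inr h
  left
  push Not at h
  set P : List ℕ → List ℕ → Prop := fun s t => ∀ n, ¬ E T' t T (n :: s) with hP
  have hroot : In T' [] := by
    by_contra h0
    rw [In_nil_iff] at h0
    refine h 0 ⟨fun _ => 0, fun s hs => ?_⟩
    exact absurd (hs [] (List.nil_suffix)) h0
  have step : ∀ n s t, In T (n :: s) ∧ In T' t ∧ P s t → ∃ m, In T' (m :: t) ∧ P (n :: s) (m :: t) := by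
    rintro n s t ⟨h1, h2, h3⟩
    by_contra hc
    push Not at hc
    have h4 : ∀ m, ∃ n', ∃ ψ : List ℕ → ℕ, In T' (m :: t) →
        ∀ l, In T' (l ++ m :: t) → In T (ext ψ l ++ n' :: n :: s) := by
      intro m
      by_cases hm : In T' (m :: t)
      · have h5 := hc m hm
        simp only [hP] at h5
        push Not at h5
        obtain ⟨n', ψ, hψ⟩ := h5
        exact ⟨n', ψ, fun _ => hψ⟩
      · exact ⟨0, fun _ => 0, fun h => absurd h hm⟩
    choose N Ψ hN using h4
    refine h3 n ⟨glue Ψ N, fun l hl => ?_⟩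
    rcases List.eq_nil_or_concat' l with rfl | ⟨l', m, rfl⟩
    · exact h1
    · rw [ext_glue, List.append_assoc]
      rw [List.append_assoc] at hl
      exact hN m (In_tail hl (List.suffix_append _ _)) l' hl
  have step' : ∀ n s t, ∃ m, (In T (n :: s) ∧ In T' t ∧ P s t) →
      In T' (m :: t) ∧ P (n :: s) (m :: t) := by
    intro n s t
    by_cases hh : In T (n :: s) ∧ In T' t ∧ P s t
    · obtain ⟨m, hm⟩ := step n s t hh
      exact ⟨m, fun _ => hm⟩
    · exact ⟨0, fun h => absurd h hh⟩
  choose c hc using step'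
  let φ : List ℕ → List ℕ := fun s => List.rec [] (fun n s t => c n s t :: t) s
  have hφ0 : φ [] = [] := rfl
  have hφ1 : ∀ n s, φ (n :: s) = c n s (φ s) :: φ s := fun _ _ => rfl
  let ψ : List ℕ → ℕ := fun s => List.casesOn s 0 (fun n s => c n s (φ s))
  have hψ : ∀ n s, ψ (n :: s) = c n s (φ s) := fun _ _ => rfl
  have hext : ∀ s, ext ψ s = φ s := by
    intro s
    induction s with
    | nil => rfl
    | cons n s ih => rw [ext, hφ1, ih, hψ]
  have key : ∀ s, In T s → In T' (φ s) ∧ P s (φ s) := by
    intro s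
    induction s with
    | nil => intro _; exact ⟨hroot, h⟩
    | cons n s ih =>
      intro hs
      obtain ⟨h1, h2⟩ := ih (In_tail hs (List.suffix_cons n s))
      rw [hφ1]
      exact hc n s (φ s) ⟨hs, h1, h2⟩
  refine ⟨ψ, fun s hs => ?_⟩
  rw [List.append_nil] at hs ⊢
  rw [hext]
  exact (key s hs).1

theorem suffix_rs {w : ℕ → ℕ} {n : ℕ} {t : List ℕ} (h : t <:+ rs w n) : ∃ m, t = rs w m := by
  induction n with
  | zero =>
    refine ⟨0, ?_⟩
    have : rs w 0 = [] := rfl
    rw [this, List.suffix_nil] at h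
    exact h
  | succ n ih =>
    rw [rs, PiNat.res_succ, List.suffix_cons_iff] at h
    rcases h with h | h
    · exact ⟨n + 1, by rw [rs, PiNat.res_succ]; exact h⟩
    · exact ih h

theorem rs_suffix (w : ℕ → ℕ) {m n : ℕ} (h : m ≤ n) : rs w m <:+ rs w n := by
  induction n, h using Nat.le_induction with
  | base => exact List.suffix_refl _
  | succ n _ ih =>
    rw [rs, rs, PiNat.res_succ]
    exact List.IsSuffix.trans ih (List.suffix_cons _ _)

theorem exists_rs (r : List ℕ) : ∃ w : ℕ → ℕ, rs w r.length = r := by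
  induction r with
  | nil => exact ⟨0, rfl⟩
  | cons a r ih =>
    obtain ⟨w, hw⟩ := ih
    refine ⟨Function.update w r.length a, ?_⟩
    have h3 : rs (Function.update w r.length a) r.length = rs w r.length := by
      rw [rs, rs, PiNat.res_eq_res]
      intro j hj
      rw [Function.update_of_ne hj.ne]
    rw [List.length_cons, rs, PiNat.res_succ, Function.update_self]
    rw [rs] at h3
    rw [h3]
    exact congrArg _ hw

theorem t_BR : S_BR := by
  rintro T T' r ⟨ψ, hψ⟩ ⟨w, hw⟩
  have hT : ∀ n, In T (rs w n ++ []) := by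
    intro n t ht
    rw [List.append_nil] at ht
    obtain ⟨m, rfl⟩ := suffix_rs ht
    exact hw m
  obtain ⟨w0, hw0⟩ := exists_rs r
  set w' : ℕ → ℕ := fun i => if i < r.length then w0 i else ψ (rs w (i - r.length + 1)) with hw'
  have key : ∀ n, rs w' (r.length + n) = ext ψ (rs w n) ++ r := by
    intro n
    induction n with
    | zero =>
      have h1 : rs w' r.length = rs w0 r.length := by
        rw [rs, rs, PiNat.res_eq_res]
        intro j hj
        simp [hw', hj]
      rw [Nat.add_zero, h1, hw0]
      rfl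
    | succ n ih =>
      rw [← Nat.add_assoc, rs, PiNat.res_succ]
      have e1 : rs w (n + 1) = w n :: rs w n := by rw [rs, PiNat.res_succ]
      have e2 : w' (r.length + n) = ψ (rs w (n + 1)) := by
        simp [hw']
      rw [e2]
      rw [rs] at ih
      rw [ih, e1, ext, List.cons_append]
  refine ⟨w', fun k => ?_⟩
  have h1 := hψ (rs w k) (hT k)
  rw [← key k] at h1
  exact h1 _ (rs_suffix w' (Nat.le_add_left k r.length))

theorem t_CODE : S_CODE := by
  intro S hS
  rw [AnalyticSet] at hS
  rcases hS with rfl | ⟨f, hf, rfl⟩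
  · refine ⟨fun _ _ => False, fun z => ?_⟩
    constructor
    · intro h; exact absurd h (Set.notMem_empty _)
    · rintro ⟨w, hw⟩; exact absurd (hw 0) id
  · refine ⟨fun s t => ∃ w : ℕ → ℕ, rs w s.length = s ∧ rs (f w) s.length = t, fun z => ?_⟩
    constructor
    · rintro ⟨w, rfl⟩
      refine ⟨w, fun n => ⟨w, ?_, rfl⟩⟩
      rw [rs, PiNat.res_length]
    · rintro ⟨w, hw⟩
      choose v hv1 hv2 using hw
      have hv1' : ∀ n, PiNat.res (v n) n = PiNat.res w n := by
        intro n
        have := hv1 n
        rwa [rs, rs, PiNat.res_length] at this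
      have hv2' : ∀ n, PiNat.res (f (v n)) n = PiNat.res z n := by
        intro n
        have := hv2 n
        rwa [rs, rs, rs, PiNat.res_length] at this
      have h1 : Tendsto v atTop (𝓝 w) := by
        rw [tendsto_pi_nhds]
        intro j
        refine tendsto_const_nhds.congr' ?_
        filter_upwards [eventually_gt_atTop j] with n hn
        exact ((PiNat.res_eq_res.1 (hv1' n)) hn).symm
      have h2 : Tendsto (fun n => f (v n)) atTop (𝓝 z) := by
        rw [tendsto_pi_nhds]
        intro j
        refine tendsto_const_nhds.congr' ?_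
        filter_upwards [eventually_gt_atTop j] with n hn
        exact ((PiNat.res_eq_res.1 (hv2' n)) hn).symm
      have h3 : Tendsto (fun n => f (v n)) atTop (𝓝 (f w)) := (hf.tendsto w).comp h1
      exact ⟨w, tendsto_nhds_unique h3 h2⟩

theorem t_ABS : S_ABS := by
  classical
  rintro B ⟨x, hx, hfin⟩ P
  have ha : ∀ j, ∃ M : ℤ, ∀ n, |(x n).1 j| ≤ M := by
    intro j
    have h1 : Tendsto (fun n => (x n).1 j) atTop (𝓝 ((0 : Z × Z).1 j)) :=
      ((continuous_apply j).comp continuous_fst).continuousAt.tendsto.comp hx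
    obtain ⟨M, hM⟩ := h1.abs.bddAbove_range
    exact ⟨M, fun n => hM ⟨n, rfl⟩⟩
  choose M hM using ha
  set z : Z := fun j => if P j then -1 - M j else M j with hz
  have hsign : ∀ n j, (z + (x n).1) j < 0 ↔ P j := by
    intro n j
    have h1 := abs_le.1 (hM j n)
    by_cases hp : P j
    · simp only [hz, Pi.add_apply, hp, if_true, iff_true]
      linarith [h1.2]
    · simp only [hz, Pi.add_apply, hp, if_false, iff_false, not_lt]
      linarith [h1.1]
  by_contra hcon
  push Not at hcon
  have hm : ∀ n, IsMeagre {k : Z | (z + (x n).1, k + (x n).2) ∉ B} := by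
    intro n
    have h1 := hcon (z + (x n).1) (hsign n)
    exact h1.preimage_of_isOpenMap (f := fun k : Z => k + (x n).2) (continuous_add_const _)
      (isOpenMap_add_right _)
  have hU := isMeagre_iUnion hm
  obtain ⟨k, hk⟩ := (dense_of_mem_residual hU).nonempty
  simp only [mem_compl_iff, mem_iUnion, Set.mem_ofPred_eq, not_exists, not_not] at hk
  have h2 := hfin (z, k)
  have h3 : {n | (z, k) + x n ∈ B} = univ := by
    ext n
    simp only [Set.mem_ofPred_eq, mem_univ, iff_true]
    exact hk n
  rw [h3] at h2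
  exact Set.infinite_univ h2

end Pool.Agent.U467.CN
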