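import Mathlib

/-!
# Project CN (MP_ceb5ee_gt, Q2): a coanalytic null-finite set without Borel null-finite hull

The group is `ℤ^ℕ × ℤ^ℕ`.  Finite sequences are written in the reversed order: the children of `s`
are the lists `n :: s`, and `rs w n = [w (n-1), ..., w 0]`.

Proof.  The signs of the coordinates of `z` code (by the package CODE) two analytic sets for every
`i = (m, v)`, that is two trees `T`, `T'` on `ℕ` for every `z` and `i`.  `A` is the set of all `(z, k)`
such that, for all `i = (m, v)`, the tree `T` is well-founded of rank at most the rank of `T'` if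
`k m = v`, and `T'` is well-founded of rank smaller than the rank of `T` if `k m ≠ v`.  This is
coanalytic (ANA) and, as ranks are comparable (COMP), there is at most one `k` for every `z`; so `A`
is null-finite.  If `B` is a Borel null-finite set, its complement `D` has a Borel uniformizing
function `u`, defined where the section of `D` is not meager (UNB, SEL).  Take the `z` with signs
coding `u` such that the section of `D` is not meager (ABS); then `(z, u z)` is in `A` and not in `B`.
-/

set_option autoImplicit false

open Set Topology Filter MeasureTheory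

namespace Pool.Agent.U467.CN

/-- null-finite sets -/
def NullFinite {X : Type*} [AddCommGroup X] [TopologicalSpace X] (A : Set X) : Prop :=
  ∃ s : ℕ → X, Tendsto s atTop (𝓝 0) ∧ ∀ x : X, {n | x + s n ∈ A}.Finite

/-- the sequences of integers -/
abbrev Z : Type := ℕ → ℤ

/-- `rs w n = [w (n-1), ..., w 0]` -/
abbrev rs {α : Type} (w : ℕ → α) (n : ℕ) : List α := PiNat.res w n

/-- all tails of `s` are in `T` -/
def In (T : List ℕ → Prop) (s : List ℕ) : Prop := ∀ t, t <:+ s → T t

/-- `T` has an infinite branch -/
def Br (T : List ℕ → Prop) : Prop := ∃ w : ℕ → ℕ, ∀ n, T (rs w n)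

/-- the length-preserving monotone map given by `ψ` -/
def ext (ψ : List ℕ → ℕ) : List ℕ → List ℕ
  | [] => []
  | n :: s => ψ (n :: s) :: ext ψ s

/-- there is a length-preserving monotone map of the tree `T` above `r` to the tree `T'` above `r'` -/
def E (T : List ℕ → Prop) (r : List ℕ) (T' : List ℕ → Prop) (r' : List ℕ) : Prop :=
  ∃ ψ : List ℕ → ℕ, ∀ s, In T (s ++ r) → In T' (ext ψ s ++ r')

/-- COMP: comparability of trees. -/
def S_COMP : Prop := ∀ T T' : List ℕ → Prop, E T [] T' [] ∨ ∃ n, E T' [] T [n]

/-- BR: branches are mapped to branches. -/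
def S_BR : Prop := ∀ (T T' : List ℕ → Prop) (r : List ℕ), E T [] T' r → Br T → Br T'

/-- ANA: the existence of a monotone map is an analytic condition. (Projection of the Borel set
`{(x, ψ) | ∀ s, In (T x) (s ++ r) → In (T' x) (ext ψ s ++ r')}` of `X × (List ℕ → ℕ)`; it is Borel since
`{ψ | ext ψ s = t}` is.) -/
def S_ANA : Prop := ∀ (X : Type) [TopologicalSpace X] [PolishSpace X] [MeasurableSpace X]
  [BorelSpace X] (T T' : X → List ℕ → Prop), (∀ s, MeasurableSet {x | T x s}) →
  (∀ s, MeasurableSet {x | T' x s}) → ∀ r r' : List ℕ, AnalyticSet {x | E (T x) r (T' x) r'}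

/-- CODE: analytic sets are coded by trees. (`S` is the range of a continuous `f : (ℕ → ℕ) → Z`, or
empty; `c s t` says that there is `w` with `rs w s.length = s` and `rs (f w) s.length = t`.) -/
def S_CODE : Prop := ∀ S : Set Z, AnalyticSet S → ∃ c : List ℕ → List ℤ → Prop,
  ∀ z, z ∈ S ↔ Br fun s => c s (rs z s.length)

/-- UNB: uniform property of Baire.  `z ∈ G n t` says that the cylinder of `t` is contained in the
`n`-th dense open set of `z`, `z ∈ O t` says that it is contained in the open set of `z`. (Induction on
the Borel set `D`; the complement: `O' t` is the set of all `z` such that no extension of `t` is in `O` and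
no tail of `t` is in `O`, a new dense open set is the union of both. Countable unions: take the
union of the `O`s and all the `G`s. Rectangles `E × {k | k m = v}`.) -/
def S_UNB : Prop := ∀ D : Set (Z × Z), MeasurableSet D →
  ∃ (O : List ℤ → Set Z) (G : ℕ → List ℤ → Set Z), (∀ t, MeasurableSet (O t)) ∧
    (∀ n t, MeasurableSet (G n t)) ∧ (∀ n z t, ∃ t', t <:+ t' ∧ z ∈ G n t') ∧
    ∀ z k : Z, (∀ n, ∃ m, z ∈ G n (rs k m)) → ((z, k) ∈ D ↔ ∃ m, z ∈ O (rs k m))

/-- SEL: Borel selection of a point in an open set and in countably many dense open sets.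
(`L 0 z` is the first list `t`, in the enumeration of the lists, with `z ∈ O t`, `L (n+1) z` is the first list
of length greater than `n` which extends `L n z` and is in `G n`; `u z m` is the entry of `L (m+1) z` at `m`.) -/
def S_SEL : Prop := ∀ (O : List ℤ → Set Z) (G : ℕ → List ℤ → Set Z), (∀ t, MeasurableSet (O t)) →
  (∀ n t, MeasurableSet (G n t)) → (∀ n z t, ∃ t', t <:+ t' ∧ z ∈ G n t') →
  ∃ u : Z → Z, Measurable u ∧ ∀ z, (∃ t, z ∈ O t) →
    (∃ m, z ∈ O (rs (u z) m)) ∧ ∀ n, ∃ m, z ∈ G n (rs (u z) m)

/-- ABS: for every pattern `P` of signs there is `z` with these signs such that the section of the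
complement of the null-finite set `B` is not meager. (`B` need not be Borel. The first parts `a n` of the null-sequence
are bounded in every coordinate; take `z` with `z + a n` of the sign pattern `P` for all `n`, and apply Baire's theorem to
the translated sections of the complement.) -/
def S_ABS : Prop := ∀ B : Set (Z × Z), NullFinite B → ∀ P : ℕ → Prop,
  ∃ z : Z, (∀ j, z j < 0 ↔ P j) ∧ ¬ IsMeagre {k | (z, k) ∉ B}

/-- The result. -/
def S_FIN : Prop := ∃ A : Set (Z × Z), AnalyticSet Aᶜ ∧ NullFinite A ∧
  ∀ B : Set (Z × Z), @MeasurableSet _ (borel (Z × Z)) B → A ⊆ B → ¬ NullFinite B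

end Pool.Agent.U467.CN
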