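import Pool.Agent.U467.CN.Asm
import Pool.Agent.U467.CN.Parts
import Pool.Agent.Results.MP_ceb5ee_gt.AnalyticHull
import Pool.Agent.U423.CN.SEL
import Pool.Agent.U603.CN.UNB
import Pool.Agent.U810.CN.ANA

/-! # Project CN: the result -/

set_option autoImplicit false

open Set Topology Filter MeasureTheory

namespace Pool.Agent.U467.CN

theorem A_nullOne : ∃ s : ℕ → Z × Z, Tendsto s atTop (𝓝 0) ∧
    ∀ x : Z × Z, {n | x + s n ∈ A}.Subsingleton := by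
  refine ⟨fun n => (0, Pi.single n 1), ?_, ?_⟩
  · rw [Prod.tendsto_iff]
    refine ⟨tendsto_const_nhds, ?_⟩
    rw [tendsto_pi_nhds]
    intro j
    refine tendsto_const_nhds.congr' ?_
    filter_upwards [eventually_gt_atTop j] with n hn
    simp [hn.ne]
  · rintro ⟨a, b⟩ n hn n' hn'
    have h1 := A_graph t_COMP (z := a + 0) (k := b + Pi.single n 1) (k' := b + Pi.single n' 1) hn hn'
    have h2 : (Pi.single n 1 : Z) = Pi.single n' 1 := add_left_cancel h1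
    by_contra hne
    have h3 := congrFun h2 n
    simp [hne] at h3

theorem fin' (hA : S_ANA) (hU : S_UNB) (hS : S_SEL) : ∃ A : Set (Z × Z),
    AnalyticSet Aᶜ ∧ NullFinite A ∧
    (∃ s : ℕ → Z × Z, Tendsto s atTop (𝓝 0) ∧ ∀ x : Z × Z, {n | x + s n ∈ A}.Subsingleton) ∧
    (∀ B : Set (Z × Z), @MeasurableSet _ (borel (Z × Z)) B → A ⊆ B → ¬ NullFinite B) ∧
    (∀ B : Set (Z × Z), AnalyticSet B → A ⊆ B → ¬ NullFinite B) := by
  have hB := asmB t_BR t_CODE hU hS t_ABS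
  refine ⟨A, A_coanalytic hA, A_nullFinite t_COMP, A_nullOne, hB, ?_⟩
  intro B hBa hAB hNF
  obtain ⟨B', hB', hNF', hBB'⟩ :=
    Pool.Agent.Results.MP_ceb5ee_gt.AnalyticHull.result (Z × Z) B hBa hNF
  exact hB B' hB' (hAB.trans hBB') hNF'

theorem fin : ∃ A : Set (Z × Z),
    AnalyticSet Aᶜ ∧ NullFinite A ∧
    (∃ s : ℕ → Z × Z, Tendsto s atTop (𝓝 0) ∧ ∀ x : Z × Z, {n | x + s n ∈ A}.Subsingleton) ∧
    (∀ B : Set (Z × Z), @MeasurableSet _ (borel (Z × Z)) B → A ⊆ B → ¬ NullFinite B) ∧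
    (∀ B : Set (Z × Z), AnalyticSet B → A ⊆ B → ¬ NullFinite B) :=
  fin' Pool.Agent.U810.CN.ANA.t_ANA Pool.Agent.U603.CN.t_UNB Pool.Agent.U423.CN.t_SEL

end Pool.Agent.U467.CN
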